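import Mathlib
import Pool.Agent.Y114.RM.Final

/-!
# Motives with coefficients and arbitrary motivic Galois group: definitions
-/

set_option autoImplicit false

namespace Pool.Agent.R931.GD

open Polynomial Filter Topology NumberField IsDedekindDomain Module Pool.Agent.Y114.TF
  Pool.Agent.Y114.GF Pool.Agent.Y114.MU Pool.Agent.Y114.RM

/-- The roots of `P v` are simple, and no quotient of two different roots is a root of unity. -/
def IsRegularPlace {K : Type} [Field K] [NumberField K]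
    (S : Set (HeightOneSpectrum (𝓞 K))) (P : HeightOneSpectrum (𝓞 K) → ℚ[X])
    (v : HeightOneSpectrum (𝓞 K)) : Prop :=
  v ∉ S ∧ (P v).Separable ∧ ∀ n : ℕ, 0 < n → ∀ x y : ℂ,
    aeval x (P v) = 0 → aeval y (P v) = 0 → x ^ n = y ^ n → x = y

/-- The splitting field of `Q` in the algebraic closure of `ℚ`. -/
noncomputable def splittingField (Q : ℚ[X]) : Set (AlgebraicClosure ℚ) :=
  (IntermediateField.adjoin ℚ {x : AlgebraicClosure ℚ | aeval x Q = 0} :
    IntermediateField ℚ (AlgebraicClosure ℚ))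

/-- The order of the restriction of `g` to the (finite, normal) field `E`. -/
noncomputable def orderOn (E : IntermediateField ℚ (AlgebraicClosure ℚ))
    (g : Gal(AlgebraicClosure ℚ/ℚ)) : ℕ :=
  sInf {k : ℕ | 0 < k ∧ ∀ a ∈ E, (g ^ k) a = a}

/-- `T` is a set of roots of `Q` which is stable under `w`. -/
def IsStableSet (w : Gal(AlgebraicClosure ℚ/ℚ)) (Q : ℚ[X]) (T : Set (AlgebraicClosure ℚ)) : Prop :=
  (∀ x ∈ T, aeval x Q = 0) ∧ ∀ x ∈ T, w x ∈ T

/-- The set `A` of prime numbers has natural density zero. -/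
def HasDensityZero (A : Set ℕ) : Prop :=
  Tendsto (fun n : ℕ => (Nat.card {ℓ : ℕ // ℓ ≤ n ∧ ℓ ∈ A} : ℝ) / (Nat.primeCounting n : ℝ))
    atTop (𝓝 0)

section coeff

variable (Γ : Type) [Group Γ] (N ℓ : ℕ) [Fact ℓ.Prime]

/-- A representation of `Γ` on `ℚ_ℓ ^ N` (a direct sum with one summand). -/
abbrev Rep1 : Type := Reps Γ (fun _ : Unit => N) ℓ

/-- A space of endomorphisms of `ℚ_ℓ ^ N`. -/
abbrev End1 : Type := EndSpace (fun _ : Unit => N) ℓ

variable {Γ N ℓ}

/-- The elements of `𝔤` commute with the endomorphisms `ε a`. -/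
def CommuteWith {E : Type} [Field E] (ε : E →+* End ℚ_[ℓ] (Fin N → ℚ_[ℓ]))
    (𝔤 : Submodule ℚ_[ℓ] (End ℚ_[ℓ] (∀ _ : Unit, Fin N → ℚ_[ℓ]))) : Prop :=
  ∀ a, ∀ X ∈ 𝔤, ∀ x i, X (fun j => ε a (x j)) i = ε a (X x i)

/-- The field `E` acts by the endomorphisms `ε a` on the representation `ρ`; the representation is
free of rank `n` over `E ⊗ ℚ_ℓ` (this is expressed by the traces), and the elements of `𝔤` commute
with the endomorphisms `ε a`. -/
structure Coefficients {E : Type} [Field E] [Algebra ℚ E] (n : ℕ) (ρ : Rep1 Γ N ℓ) (𝔤 : End1 N ℓ)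
    (ε : E →+* End ℚ_[ℓ] (Fin N → ℚ_[ℓ])) : Prop where
  galois : ∀ a γ, ε a * ρ () γ = ρ () γ * ε a
  trace : ∀ a, LinearMap.trace ℚ_[ℓ] (Fin N → ℚ_[ℓ]) (ε a) =
    (n : ℚ_[ℓ]) * ((Algebra.trace ℚ E a : ℚ) : ℚ_[ℓ])
  motivic : CommuteWith ε 𝔤

end coeff

end Pool.Agent.R931.GD
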