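import Pool.Agent.R931.GD.Main
import Pool.Agent.Y405.ZO.Frob
import Pool.Agent.Y484.ZI.IntRes
import Pool.Agent.Y726.ZI.Cheb
import Pool.Agent.Y681.ZI.Dens
import Pool.Agent.Y537.ZI.Multi
import Pool.Agent.Y614.ZD.Badd
import Pool.Agent.Y100.ZD.Sub
import Pool.Agent.Y255.SS.LF
import Pool.Agent.Y297.SS.CF
import Pool.Agent.Y708.SS.Loc
import Pool.Agent.Y936.SS.Logr
import Pool.Agent.Y518.SS.Krs
import Pool.Agent.Y737.SS.Chara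
import Pool.Agent.Y932.SI.Subf
import Pool.Agent.Y421.SI.EF
import Pool.Agent.Y641.SI.Trd
import Pool.Agent.Y949.SI.Ende

/-!
# Motives with coefficients and arbitrary motivic Galois group at 100 percent of the primes: the
main theorem
-/

set_option autoImplicit false
set_option linter.unusedSectionVars false
set_option linter.unusedVariables false

namespace Pool.Agent.R931.GD

open NumberField IsDedekindDomain Module Polynomial TensorProduct Pool.Agent.TH118.SG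
  Pool.Agent.Y114.MU Pool.Agent.Y114.TF Pool.Agent.Y114.GF Pool.Agent.H204R3.GP
  Pool.Agent.Y114.RM Pool.Agent.R931.IR Pool.Agent.R931.BD Filter Topology

theorem main (K : Type) [Field K] [NumberField K] (Γ : Type) [Group Γ] [TopologicalSpace Γ]
    [IsTopologicalGroup Γ] [CompactSpace Γ] (s : Gal(AlgebraicClosure K/K) →* Γ)
    (hs : Continuous s) (N : ℕ) (wt : ℤ)
    (S : Set (HeightOneSpectrum (𝓞 K))) (hS : S.Finite) (P : HeightOneSpectrum (𝓞 K) → ℚ[X])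
    (ρ : ∀ (ℓ : ℕ) [Fact ℓ.Prime], Rep1 Γ N ℓ) (hρ : ∀ (ℓ : ℕ) [Fact ℓ.Prime], Conts (ρ ℓ))
    (hP : ∀ (ℓ : ℕ) [Fact ℓ.Prime], ∀ v ∉ S, ¬ Above v ℓ →
      GoodReduction (restrictTo (ρ ℓ) s) () wt v (P v))
    (E : IntermediateField ℚ (AlgebraicClosure ℚ)) [FiniteDimensional ℚ E] [Normal ℚ E]
    (n : ℕ) (hn : 0 < n) (hN : N = n * Module.finrank ℚ E)
    (𝔤 : ∀ (ℓ : ℕ) [Fact ℓ.Prime], End1 N ℓ) (h𝔤 : ∀ (ℓ : ℕ) [Fact ℓ.Prime], Motivic (ρ ℓ) (𝔤 ℓ))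
    (ε : ∀ (ℓ : ℕ) [Fact ℓ.Prime], E →+* End ℚ_[ℓ] (Fin N → ℚ_[ℓ]))
    (hε : ∀ (ℓ : ℕ) [Fact ℓ.Prime], Coefficients n (ρ ℓ) (𝔤 ℓ) (ε ℓ))
    (r : ℕ) (hrank : ∀ (ℓ : ℕ) [Fact ℓ.Prime], RankLE (𝔤 ℓ) r)
    (p₀ : ℕ) (hp₀ : p₀.Prime) (hunr : UnramifiedIn K p₀) (hp₀S : ∀ v, Above v p₀ → v ∉ S)
    (hind₀ : IndependentPlaces (fun v (_ : Unit) => P v) p₀)
    (v₀ : HeightOneSpectrum (𝓞 K)) (hv₀ : Above v₀ p₀) (hr : IndepRoots r {P v₀})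
    (m : ℕ) (u : Fin (m + 1) → HeightOneSpectrum (𝓞 K)) (hu : ∀ i, IsRegularPlace S P (u i))
    (h1 : ∀ (g : Gal(AlgebraicClosure ℚ/ℚ)) (d : ℕ), 0 < d → d < N → ¬ n * orderOn E g ∣ d →
      ∃ (v : HeightOneSpectrum (𝓞 K)) (w : Gal(AlgebraicClosure ℚ/ℚ)), IsRegularPlace S P v ∧
        (∀ x, (∀ i, x ∈ splittingField (P (u i))) → w x = g x) ∧
        ∀ T, IsStableSet w (P v) T → T.ncard ≠ d)
    (h2 : ∀ g : Gal(AlgebraicClosure ℚ/ℚ),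
      ∃ (v : HeightOneSpectrum (𝓞 K)) (w : Gal(AlgebraicClosure ℚ/ℚ)), IsRegularPlace S P v ∧
        (∀ x, (∀ i, x ∈ splittingField (P (u i))) → w x = g x) ∧
        ∀ T, IsStableSet w (P v) T → T.Nonempty → n * orderOn E w ∣ T.ncard →
          ∃ x ∈ T, (w ^ orderOn E w) x = x) :
    HasDensityZero {ℓ | ∃ _ : Fact ℓ.Prime, ¬ (Semisimple (ρ ℓ) ∧ TateTensorsOf (ρ ℓ) (𝔤 ℓ))} := by
  -- the tasks
  have hFROB : Y142.ZO.S_FROB := Y405.ZO.t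
  have hINT : Y142.ZI.S_INT := Y484.ZI.t1
  have hCHEB : Y142.ZI.S_CHEB := Y726.ZI.t1
  have hDENS2 : Y142.ZI.S_DENS2 := Y681.ZI.t hCHEB
  have hMULTI : Y142.ZI.S_MULTI := Y537.ZI.t
  have hLF : Y142.SS.S_LF := Y255.SS.t
  have hCF : Y142.SS.S_CF := Y297.SS.t hLF
  have hLOC : Y142.SS.S_LOC := Y708.SS.Loc.t hCF
  have hLOGR : Y142.SS.S_LOGR := Y936.SS.t
  have hKRS : Y142.SS.S_KRS := Y518.SS.t
  have hCHARA : Y142.SS.S_CHARA := Y737.SS.Chara.t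
  have hBADD : Y142.ZD.S_BADD := Y614.ZD.t
  have hSUB : Y142.ZD.S_SUB := Y100.ZD.t
  have hSUBF : Y142.SI.S_SUBF := Y932.SI.Subf.t hLF hCF
  have hEF : Y142.SI.S_EF := Y421.SI.EF.t hLOC
  have hTRD : Y142.SI.S_TRD := Y641.SI.t
  have hENDE : Y142.SI.S_ENDE := Y949.SI.t
  have hgs : ∀ (ℓ : ℕ) [Fact ℓ.Prime], Y142.SI.GenSys K s N ℓ (matRep (ρ ℓ)) S P := by
    intro ℓ _
    refine ⟨hρ ℓ (), fun v hv hvℓ σ hσ => ?_⟩
    obtain ⟨Q, hQm, hQ, hfrob⟩ := hσ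
    have h3 := (((hP ℓ v hv hvℓ).2 Q ⟨hQm.isPrime, hQ⟩ σ).2 hfrob)
    have h4 : ((ρ ℓ) () (s σ⁻¹)).charpoly = (P v).map (algebraMap ℚ ℚ_[ℓ]) := h3
    rw [matRep_apply, ← Matrix.charpoly_toLin', Matrix.toLin'_toMatrix']
    exact h4
  have hsys' : ∀ (ℓ : ℕ) [Fact ℓ.Prime], Y142.SS.Sys K N ℓ ((matRep (ρ ℓ)).comp s) S P :=
    fun ℓ _ => ⟨(hgs ℓ).1.comp hs, fun v hv hvℓ σ hσ => (hgs ℓ).2 v hv hvℓ σ hσ⟩
  have hnice : ∀ v, IsRegularPlace S P v → Y142.ZS.NiceP S P v := fun v hv =>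
    Y142.SS.nice_of_complexA (fun ℓ _ => (matRep (ρ ℓ)).comp s) hsys' hv.1 hv.2.1 hv.2.2
  have hLf : ∀ (i : Fin (m + 1)) (x : AlgebraicClosure ℚ),
      x ∈ Y142.ZI.Lf (P (u i)) → x ∈ splittingField (P (u i)) := by
    intro i x hx
    have h2 : (P (u i)).rootSet (AlgebraicClosure ℚ) =
        {x : AlgebraicClosure ℚ | aeval x (P (u i)) = 0} := by
      ext y
      exact mem_rootSet_of_ne (hu i).2.1.ne_zero
    unfold Y142.ZI.Lf at hx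
    rw [h2] at hx
    exact hx
  have hA : ∀ g w : Gal(AlgebraicClosure ℚ/ℚ),
      (∀ x, (∀ i, x ∈ splittingField (P (u i))) → w x = g x) →
      w⁻¹ * g ∈ Subgroup.closure (⋃ i, Y142.SS.Fix (P (u i))) := by
    intro g w hw
    refine Y142.SS.field_mem _ (fun i => (hu i).2.1.ne_zero) fun x hx => ?_
    change w.symm (g x) = x
    rw [← hw x fun i => hLf i x (hx i)]
    exact w.symm_apply_apply x
  have hdens := Y142.SI.densitySI hLOC hLOGR hKRS hCHARA hMULTI hFROB hINT hDENS2 hBADD hSUB hSUBF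
    hEF hTRD hENDE hS s hs (fun ℓ _ => matRep (ρ ℓ)) hgs E inferInstance inferInstance n hn hN
    (fun ℓ _ => matCoef (ε ℓ)) (fun ℓ _ a γ => by
      rw [matCoef_apply, matRep_apply, ← LinearMap.toMatrix'_mul, ← LinearMap.toMatrix'_mul,
        (hε ℓ).galois])
    (fun ℓ _ a => by
      rw [matCoef_apply, ← (hε ℓ).trace a]
      exact (LinearMap.trace_eq_matrix_trace _ (Pi.basisFun _ _) _).symm) u
    (fun i => hnice _ (hu i)) (by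
      intro g d hd hdN hnd
      obtain ⟨v, w, hv, hw, hT⟩ := h1 g d hd hdN hnd
      exact ⟨v, hnice v hv, w, fun T hT1 hT2 => hT T ⟨hT1, hT2⟩, hA g w hw⟩) (by
      intro g
      obtain ⟨v, w, hv, hw, hT⟩ := h2 g
      exact ⟨v, hnice v hv, w, fun T hT1 hne hT2 hd => hT T ⟨hT1, hT2⟩ hne hd, hA g w hw⟩)
  refine Y142.ZI.DensityZero.mono (hdens.union (densityZero_finite (Set.finite_singleton p₀))) ?_
  rintro ℓ ⟨hp, hno⟩
  by_contra hnot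
  rw [Set.mem_union, not_or] at hnot
  have hgood : Y142.SI.GoodEnd ℓ E (matRep (ρ ℓ)) (matCoef (ε ℓ)) := by
    by_contra hg
    exact hnot.1 ⟨hp, hg⟩
  refine hno (full_place s hs (fun _ => wt) S hS (fun v _ => P v) ℓ (ρ ℓ) (hρ ℓ)
    (fun v hv hvℓ _ => hP ℓ v hv hvℓ) _ (h𝔤 ℓ) r (hrank ℓ) hp₀ (fun h => hnot.2 h.symm) hunr hp₀S
    hind₀ hv₀ (independentRoots_one hr) (endos_of_goodEnd (ρ ℓ) (hρ ℓ) (ε ℓ) (𝔤 ℓ) (hε ℓ) hgood))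

end Pool.Agent.R931.GD
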