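import Mathlib
import Pool.Agent.Y114.GF.Defs

/-!
# Only finitely many prime numbers are ramified
-/

set_option autoImplicit false

namespace Pool.Agent.R931.GD

open NumberField IsDedekindDomain Pool.Agent.Y114.GF

variable {K : Type} [Field K] [NumberField K]

theorem unramified_of_not_dvd {p : ℕ} (hp : p.Prime) (h : ¬ (p : ℤ) ∣ discr K) :
    UnramifiedIn K p := by
  intro v hv hv2
  have hmax : (Ideal.span {(p : ℤ)}).IsMaximal :=
    PrincipalIdealRing.isMaximal_of_irreducible (Nat.prime_iff_prime_int.1 hp).irreducible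
  have hne : (Ideal.span {(p : ℤ)}) ≠ ⊥ := by
    rw [Ne, Ideal.span_singleton_eq_bot]
    exact_mod_cast hp.ne_zero
  have h1 : v.asIdeal ^ 2 ∣ (Ideal.span {(p : ℤ)}).map (algebraMap ℤ (𝓞 K)) := by
    rw [Ideal.dvd_iff_le, Ideal.map_span, Set.image_singleton, Ideal.span_singleton_le_iff_mem]
    simpa using hv2
  have h2 := pow_sub_one_dvd_differentIdeal (A := ℤ) (B := 𝓞 K) v.asIdeal 2 hne h1
  rw [Nat.add_one_sub_one, pow_one, Ideal.dvd_iff_le] at h2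
  have h3 : ((discr K : ℤ) : 𝓞 K) ∈ v.asIdeal := h2 (discr_mem_differentIdeal K (𝓞 K))
  have h4 : IsCoprime (p : ℤ) (discr K) :=
    (Prime.coprime_iff_not_dvd (Nat.prime_iff_prime_int.1 hp)).2 h
  obtain ⟨a, b, hab⟩ := h4
  apply v.isPrime.ne_top
  rw [Ideal.eq_top_iff_one]
  have h5 : (1 : 𝓞 K) = (a : 𝓞 K) * (p : 𝓞 K) + (b : 𝓞 K) * ((discr K : ℤ) : 𝓞 K) := by
    have h6 := congrArg (Int.cast : ℤ → 𝓞 K) hab
    push_cast at h6
    exact h6.symm
  rw [h5]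
  exact Ideal.add_mem _ (Ideal.mul_mem_left _ _ hv) (Ideal.mul_mem_left _ _ h3)

theorem above_inj {v : HeightOneSpectrum (𝓞 K)} {p p' : ℕ} (hp : p.Prime) (hp' : p'.Prime)
    (h : Above v p) (h' : Above v p') : p = p' := by
  by_contra hne
  obtain ⟨a, b, hab⟩ : IsCoprime (p : ℤ) (p' : ℤ) :=
    Nat.isCoprime_iff_coprime.2 ((Nat.coprime_primes hp hp').2 hne)
  apply v.isPrime.ne_top
  rw [Ideal.eq_top_iff_one]
  have h5 : (1 : 𝓞 K) = (a : 𝓞 K) * (p : 𝓞 K) + (b : 𝓞 K) * (p' : 𝓞 K) := by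
    have h6 := congrArg (Int.cast : ℤ → 𝓞 K) hab
    push_cast at h6
    exact h6.symm
  rw [h5]
  exact Ideal.add_mem _ (Ideal.mul_mem_left _ _ h) (Ideal.mul_mem_left _ _ h')

theorem finite_below (S : Set (HeightOneSpectrum (𝓞 K))) (hS : S.Finite) :
    {p : ℕ | p.Prime ∧ ∃ v ∈ S, Above v p}.Finite := by
  classical
  have h1 : ∀ v : HeightOneSpectrum (𝓞 K), {p : ℕ | p.Prime ∧ Above v p}.Finite := by
    intro v
    refine Set.Subsingleton.finite ?_
    rintro p ⟨hp, h⟩ p' ⟨hp', h'⟩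
    exact above_inj hp hp' h h'
  refine (hS.biUnion fun v _ => h1 v).subset ?_
  rintro p ⟨hp, v, hv, hpv⟩
  exact Set.mem_biUnion hv ⟨hp, hpv⟩

variable (K) in
theorem finite_ramified : {p : ℕ | p.Prime ∧ ¬ UnramifiedIn K p}.Finite := by
  refine (Set.finite_Iic (discr K).natAbs).subset ?_
  rintro p ⟨hp, hr⟩
  rw [Set.mem_Iic]
  by_contra hlt
  push Not at hlt
  apply hr
  refine unramified_of_not_dvd hp fun hdvd => ?_
  have h1 : p ∣ (discr K).natAbs := Int.natCast_dvd.1 hdvd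
  have h2 := Nat.le_of_dvd (Int.natAbs_pos.2 (discr_ne_zero K)) h1
  omega

/-- Infinitely many primes are unramified and good. -/
theorem infinite_good (S : Set (HeightOneSpectrum (𝓞 K))) (hS : S.Finite) (ℓ : ℕ) :
    {p : ℕ | p.Prime ∧ p ≠ ℓ ∧ UnramifiedIn K p ∧ ∀ v, Above v p → v ∉ S}.Infinite := by
  have h1 : ({p : ℕ | p.Prime} \ ({ℓ} ∪ {p : ℕ | p.Prime ∧ ¬ UnramifiedIn K p} ∪
      {p : ℕ | p.Prime ∧ ∃ v ∈ S, Above v p})).Infinite :=
    Nat.infinite_setOf_prime.sdiff (((Set.finite_singleton ℓ).union (finite_ramified K)).union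
      (finite_below S hS))
  refine h1.mono ?_
  rintro p ⟨hp, hp'⟩
  refine ⟨hp, fun h => hp' (Or.inl (Or.inl h)), ?_, fun v hv hvS => hp' (Or.inr ⟨hp, v, hvS, hv⟩)⟩
  by_contra h
  exact hp' (Or.inl (Or.inr ⟨hp, h⟩))

end Pool.Agent.R931.GD
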