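import Pool.Agent.R931.BD.Place
import Pool.Agent.R931.GD.Ram
import Pool.Agent.R931.GD.Defs
import Pool.Agent.Y142.SI.Fin

/-!
# Motives with coefficients and arbitrary motivic Galois group at 100 percent of the primes
-/

set_option autoImplicit false
set_option linter.unusedSectionVars false
set_option linter.unusedVariables false

namespace Pool.Agent.R931.GD

open NumberField IsDedekindDomain Module Polynomial TensorProduct Pool.Agent.TH118.SG
  Pool.Agent.Y114.MU Pool.Agent.Y114.TF Pool.Agent.Y114.GF Pool.Agent.H204R3.GP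
  Pool.Agent.Y114.RM Pool.Agent.R931.IR Pool.Agent.R931.BD Filter Topology

section full

variable {K : Type} [Field K] [NumberField K] {Γ : Type} [Group Γ] [TopologicalSpace Γ]
  [IsTopologicalGroup Γ] [CompactSpace Γ]

/-- A place with a Frobenius torus of maximal rank, and no new endomorphisms. -/
theorem full_place (s : Gal(AlgebraicClosure K/K) →* Γ) (hs : Continuous s)
    {ι : Type} [Fintype ι] [DecidableEq ι] {n : ι → ℕ} (w : ι → ℤ)
    (S : Set (HeightOneSpectrum (𝓞 K))) (hS : S.Finite)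
    (P : HeightOneSpectrum (𝓞 K) → ι → ℚ[X])
    (ℓ : ℕ) [hℓ : Fact ℓ.Prime] (ρ : Reps Γ n ℓ) (hρ : Conts ρ)
    (hP : ∀ v ∉ S, ¬ Above v ℓ → ∀ i, GoodReduction (restrictTo ρ s) i (w i) v (P v i))
    (𝔤 : Submodule ℚ_[ℓ] (End ℚ_[ℓ] (∀ i, Fin (n i) → ℚ_[ℓ]))) (h𝔤 : IsMotivic ρ 𝔤)
    (r : ℕ) (hrank : RankAtMost 𝔤 r) {p₀ : ℕ} (hp₀ : p₀.Prime) (hp₀ℓ : p₀ ≠ ℓ)
    (hunr : UnramifiedIn K p₀) (hp₀S : ∀ v, Above v p₀ → v ∉ S) (hind₀ : IndependentPlaces P p₀)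
    {v₀ : HeightOneSpectrum (𝓞 K)} (hv₀ : Above v₀ p₀) (hr : IndependentRoots r (P v₀))
    (hend : EndosFixed (sumRep ρ) 𝔤) :
    FiniteIndexSemisimple (sumRep ρ) ∧ TateIsKilledBy (sumRep ρ) 𝔤 := by
  have hT3 : 3 ≤ {p : ℕ | p.Prime ∧ p ≠ ℓ ∧ UnramifiedIn K p ∧ ∀ v, Above v p → v ∉ S}.encard := by
    rw [(infinite_good S hS ℓ).encard_eq]
    exact le_top
  obtain ⟨L, alg, t, hss, hLT, hLie, hLG, hND, -, -, htL, hdiag, hcomm, hcen⟩ :=
    semi_main' ρ s hs inputs inputs2 inputs3.rank hρ 𝔤 h𝔤 P _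
    hT3 (fun p hp => ⟨hp.1, hp.2.1, hp.2.2.1⟩)
    (fun p hp v hv => goodPlace_of (restrictTo ρ s)
      (hP v (hp.2.2.2 v hv) fun h => hp.2.1 (above_inj hp.1 hℓ.out hv h)))
    (show p₀ ∈ _ from ⟨hp₀, hp₀ℓ, hunr, hp₀S⟩) hind₀ hv₀ r hr hrank
  have hfull : L = 𝔤 := full_of_endos ρ hρ 𝔤 h𝔤 alg hss hLT hLie hLG hND htL hdiag hcomm hcen hend
  refine ⟨hss, fun m φ => ?_⟩
  exact ⟨fun hφ X hX => (hLT X).1 (hfull ▸ hX) m φ hφ, IsMotivic.tate h𝔤 m φ⟩

end full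

section endos

variable {Γ : Type} [Group Γ] [TopologicalSpace Γ] [IsTopologicalGroup Γ] {N ℓ : ℕ}
  [Fact ℓ.Prime]

/-- The representation by matrices. -/
noncomputable def matRep (ρ : Rep1 Γ N ℓ) : Γ →* Matrix (Fin N) (Fin N) ℚ_[ℓ] :=
  ((LinearMap.toMatrixAlgEquiv' (R := ℚ_[ℓ]) (n := Fin N)) :
    End ℚ_[ℓ] (Fin N → ℚ_[ℓ]) →* Matrix (Fin N) (Fin N) ℚ_[ℓ]).comp (ρ ())

theorem matRep_apply (ρ : Rep1 Γ N ℓ) (γ : Γ) : matRep ρ γ = LinearMap.toMatrix' (ρ () γ) := rfl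

/-- The coefficients as matrices. -/
noncomputable def matCoef {E : Type} [Field E] (ε : E →+* End ℚ_[ℓ] (Fin N → ℚ_[ℓ])) :
    E →+* Matrix (Fin N) (Fin N) ℚ_[ℓ] :=
  ((LinearMap.toMatrixAlgEquiv' (R := ℚ_[ℓ]) (n := Fin N)) :
    End ℚ_[ℓ] (Fin N → ℚ_[ℓ]) →+* Matrix (Fin N) (Fin N) ℚ_[ℓ]).comp ε

theorem matCoef_apply {E : Type} [Field E] (ε : E →+* End ℚ_[ℓ] (Fin N → ℚ_[ℓ])) (a : E) :
    matCoef ε a = LinearMap.toMatrix' (ε a) := rfl

theorem endos_of_goodEnd (ρ : Rep1 Γ N ℓ) (hρ : Conts ρ)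
    {E : IntermediateField ℚ (AlgebraicClosure ℚ)} {n : ℕ}
    (ε : E →+* End ℚ_[ℓ] (Fin N → ℚ_[ℓ])) (𝔤 : End1 N ℓ) (hε : Coefficients n ρ 𝔤 ε)
    (hgood : Pool.Agent.Y142.SI.GoodEnd ℓ E (matRep ρ) (matCoef ε)) :
    EndosFixed (sumRep ρ) (show Submodule ℚ_[ℓ] (End ℚ_[ℓ] (∀ _ : Unit, Fin N → ℚ_[ℓ])) from 𝔤) := by
  rintro Y ⟨Δ, hΔ, hY⟩ X hX
  -- the block of `Y`
  obtain ⟨y, hy⟩ : ∃ y : End ℚ_[ℓ] (Fin N → ℚ_[ℓ]), Y = (uu ℓ N).conj y :=
    ⟨(uu ℓ N).symm.conj Y, by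
      refine LinearMap.ext fun x => ?_
      simp [LinearEquiv.conj_apply]⟩
  have hcomm : ∀ γ ∈ Δ, y * ρ () γ = ρ () γ * y := by
    intro γ hγ
    have h1 := hY γ hγ
    have h2 : sumRep ρ γ = (uu ℓ N).conj (ρ () γ) := sumRep_unit N (ρ ()) γ
    rw [h2, hy] at h1
    refine LinearMap.ext fun x => ?_
    have h3 := congrFun (LinearMap.congr_fun h1 (fun _ => x)) ()
    exact h3.symm
  let U : Subgroup Γ := Δ.topologicalClosure
  have hUfi : U.FiniteIndex := Subgroup.finiteIndex_of_le Δ.le_topologicalClosure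
  have hUopen : IsOpen (U : Set Γ) :=
    Subgroup.isOpen_of_isClosed_of_finiteIndex U Δ.isClosed_topologicalClosure
  have hcont : Continuous fun γ => matRep ρ γ := hρ ()
  have hU : ∀ τ ∈ U, LinearMap.toMatrix' y * matRep ρ τ = matRep ρ τ * LinearMap.toMatrix' y := by
    have hcl : IsClosed {τ : Γ | LinearMap.toMatrix' y * matRep ρ τ =
        matRep ρ τ * LinearMap.toMatrix' y} :=
      isClosed_eq (continuous_const.matrix_mul hcont) (hcont.matrix_mul continuous_const)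
    have hsub : (Δ : Set Γ) ⊆ {τ : Γ | LinearMap.toMatrix' y * matRep ρ τ =
        matRep ρ τ * LinearMap.toMatrix' y} := by
      intro γ hγ
      change LinearMap.toMatrix' y * LinearMap.toMatrix' (ρ () γ) =
        LinearMap.toMatrix' (ρ () γ) * LinearMap.toMatrix' y
      rw [← LinearMap.toMatrix'_mul, ← LinearMap.toMatrix'_mul, hcomm γ hγ]
    intro τ hτ
    exact closure_minimal hsub hcl hτ
  have hspan := (hgood U hUopen).1 _ hU
  -- the matrices which commute with `X`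
  have key : ∀ A ∈ Submodule.span ℚ_[ℓ] (Set.range (matCoef ε)),
      X * (uu ℓ N).conj (Matrix.toLin' A) = (uu ℓ N).conj (Matrix.toLin' A) * X := by
    intro A hA
    induction hA using Submodule.span_induction with
    | mem A hA =>
      obtain ⟨a, rfl⟩ := hA
      rw [matCoef_apply, Matrix.toLin'_toMatrix']
      refine LinearMap.ext fun x => funext fun i => ?_
      exact hε.motivic a X hX x i
    | zero => rw [map_zero, map_zero, mul_zero, zero_mul]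
    | add A B _ _ hA hB => rw [map_add, map_add, mul_add, add_mul, hA, hB]
    | smul c A _ hA => rw [map_smul, map_smul, mul_smul_comm, smul_mul_assoc, hA]
  have h4 := key _ hspan
  rw [Matrix.toLin'_toMatrix', ← hy] at h4
  exact h4

end endos

/-- Finite sets have density zero. -/
theorem densityZero_finite {A : Set ℕ} (hA : A.Finite) : Pool.Agent.Y142.ZI.DensityZero A := by
  have h1 : Tendsto (fun n : ℕ => (A.ncard : ℝ) / (Nat.primeCounting n : ℝ)) atTop (𝓝 0) := by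
    refine Tendsto.div_atTop tendsto_const_nhds ?_
    exact tendsto_natCast_atTop_atTop.comp Nat.tendsto_primeCounting
  refine squeeze_zero (fun n => by positivity) (fun n => ?_) h1
  refine div_le_div_of_nonneg_right ?_ (Nat.cast_nonneg _)
  have h2 : Nat.card {ℓ : ℕ // ℓ ≤ n ∧ ℓ ∈ A} ≤ A.ncard := by
    have h3 : Nat.card {ℓ : ℕ // ℓ ≤ n ∧ ℓ ∈ A} = ({ℓ : ℕ | ℓ ≤ n ∧ ℓ ∈ A}).ncard := rfl
    rw [h3]
    exact Set.ncard_le_ncard (fun x hx => hx.2) hA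
  exact_mod_cast h2

end Pool.Agent.R931.GD
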